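import Pool.Agent.Helper13_Eng2.Stmts

set_option autoImplicit false

namespace Pool.Agent.Eng.H18

open Pool.Agent.Eng

theorem hq : HqStmt := by
  classical
  intro K _ _ _ ⟨x0, hx0⟩
  let F : Subfield K := RingHom.eqLocusField (starRingEnd K) (RingHom.id K)
  have hF : ∀ x : K, x ∈ F ↔ star x = x := fun x => Iff.rfl
  have hfF : Fintype F := Fintype.ofFinite _
  have hfK : Fintype K := Fintype.ofFinite _
  have hd : x0 - star x0 ≠ 0 := sub_ne_zero.mpr (Ne.symm hx0)
  have hfix : ∀ y : K, star (y + star y) = y + star y := by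
    intro y
    rw [star_add, star_star, add_comm]
  have hb : ∀ y : K, (y - star y) / (x0 - star x0) ∈ F := by
    intro y
    rw [hF, star_div₀, star_sub, star_sub, star_star, star_star, ← neg_sub y, ← neg_sub x0,
      neg_div_neg_eq]
  have ha : ∀ y : K, y - (y - star y) / (x0 - star x0) * x0 ∈ F := by
    intro y
    have h1 := (hF _).mp (hb y)
    rw [hF, star_sub, star_mul, h1]
    have h2 : (y - star y) / (x0 - star x0) * (x0 - star x0) = y - star y :=
      div_mul_cancel₀ _ hd
    linear_combination h2
  have hcard : Nat.card K = Nat.card F ^ 2 := by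
    rw [sq, ← Nat.card_prod]
    symm
    apply Nat.card_eq_of_bijective (fun p : F × F => (p.1 : K) + p.2 * x0)
    constructor
    · rintro ⟨a, b⟩ ⟨a', b'⟩ h
      simp only at h
      have h1 := congrArg star h
      simp only [star_add, star_mul] at h1
      rw [(hF _).mp a.2, (hF _).mp b.2, (hF _).mp a'.2, (hF _).mp b'.2] at h1
      have h2 : ((b : K) - b') * (x0 - star x0) = 0 := by linear_combination h - h1
      have h3 : (b : K) = b' := by
        rcases mul_eq_zero.mp h2 with h3 | h3
        · exact sub_eq_zero.mp h3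
        · exact absurd h3 hd
      rw [h3] at h
      exact Prod.ext (Subtype.ext (add_right_cancel h)) (Subtype.ext h3)
    · intro y
      exact ⟨(⟨_, ha y⟩, ⟨_, hb y⟩), by simp⟩
  have hq2 : 2 ≤ Nat.card F := Finite.one_lt_card
  refine ⟨Nat.card F, F, inferInstance, inferInstance, inferInstance, ⟨hcard, ?_, hq2⟩, rfl,
    fun c => (hF _).mp c.2⟩
  have hphi : ∀ x : K, FiniteField.frobeniusAlgHom F K x = x ^ Nat.card F := by
    intro x
    rw [Nat.card_eq_fintype_card]
    rfl
  intro x
  by_cases hx : x ∈ F
  · have h1 := FiniteField.pow_card (K := F) ⟨x, hx⟩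
    have h2 := congrArg (fun y : F => (y : K)) h1
    have h3 : x ^ Fintype.card F = x := h2
    rw [Nat.card_eq_fintype_card, h3, (hF x).mp hx]
  · have ht : x + star x ∈ F := (hF _).mpr (hfix x)
    have hn : x * star x ∈ F := by
      rw [hF, star_mul, star_star]
    have h1 : x * x - algebraMap F K ⟨_, ht⟩ * x + algebraMap F K ⟨_, hn⟩ = 0 := by
      show x * x - (x + star x) * x + x * star x = 0
      ring
    have h2 := congrArg (FiniteField.frobeniusAlgHom F K) h1
    rw [map_add, map_sub, map_mul, map_mul, AlgHom.commutes, AlgHom.commutes, map_zero,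
      hphi] at h2
    have h3 : (x ^ Nat.card F - x) * (x ^ Nat.card F - star x) = 0 := by
      have h4 : x ^ Nat.card F * x ^ Nat.card F - (x + star x) * x ^ Nat.card F +
          x * star x = 0 := h2
      linear_combination h4
    rcases mul_eq_zero.mp h3 with h4 | h4
    · exfalso
      have hxq : x ^ Nat.card F = x := sub_eq_zero.mp h4
      have hd' : x - star x ≠ 0 := sub_ne_zero.mpr (fun h => hx ((hF x).mpr h.symm))
      have hall : ∀ y : K, y ^ Nat.card F = y := by
        intro y
        have hb' : (y - star y) / (x - star x) ∈ F := by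
          rw [hF, star_div₀, star_sub, star_sub, star_star, star_star, ← neg_sub y, ← neg_sub x,
            neg_div_neg_eq]
        have ha' : y - (y - star y) / (x - star x) * x ∈ F := by
          have h1 := (hF _).mp hb'
          rw [hF, star_sub, star_mul, h1]
          have h2 : (y - star y) / (x - star x) * (x - star x) = y - star y :=
            div_mul_cancel₀ _ hd'
          linear_combination h2
        have h5 : y = algebraMap F K ⟨_, ha'⟩ + algebraMap F K ⟨_, hb'⟩ * x := by
          show y = (y - (y - star y) / (x - star x) * x) + (y - star y) / (x - star x) * x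
          ring
        rw [← hphi]
        conv_lhs => rw [h5]
        rw [map_add, map_mul, AlgHom.commutes, AlgHom.commutes, hphi, hxq, ← h5]
      have h6 : ∀ y : Kˣ, y ^ (Nat.card F - 1) = 1 := by
        intro y
        apply Units.ext
        have h7 := hall y
        have h8 : (y : K) ^ (Nat.card F - 1) * y = 1 * y := by
          rw [← pow_succ, Nat.sub_add_cancel (by omega), h7, one_mul]
        rw [Units.val_pow_eq_pow_val, Units.val_one]
        exact mul_right_cancel₀ y.ne_zero h8
      have h7 := (FiniteField.forall_pow_eq_one_iff K (Nat.card F - 1)).mp h6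
      have h8 := Nat.le_of_dvd (by omega) h7
      rw [← Nat.card_eq_fintype_card, hcard] at h8
      have h9 : Nat.card F * 2 ≤ Nat.card F ^ 2 := by
        rw [sq]
        exact Nat.mul_le_mul_left _ hq2
      omega
    · exact (sub_eq_zero.mp h4).symm

theorem hnm : HnmStmt := by
  intro K _ _ _ q hq c hc
  have hfK : Fintype K := Fintype.ofFinite _
  by_cases h0 : c = 0
  · exact ⟨0, by rw [h0, mul_zero]⟩
  · obtain ⟨ζ, hζ⟩ := IsCyclic.exists_generator (α := Kˣ)
    obtain ⟨k, hk⟩ := Subgroup.mem_zpowers_iff.mp (hζ (Units.mk0 c h0))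
    have hord : orderOf ζ = q ^ 2 - 1 := by
      rw [orderOf_eq_card_of_forall_mem_zpowers hζ, Nat.card_units, hq.card]
    have h1 : c ^ q = c := by rw [← hq.star, hc]
    have h2 : (Units.mk0 c h0) ^ ((q - 1 : ℕ) : ℤ) = 1 := by
      apply Units.ext
      rw [zpow_natCast, Units.val_pow_eq_pow_val, Units.val_one, Units.val_mk0]
      have h3 : c ^ (q - 1) * c = 1 * c := by
        rw [← pow_succ, Nat.sub_add_cancel (by have := hq.two_le; omega), h1, one_mul]
      exact mul_right_cancel₀ h0 h3
    rw [← hk, ← zpow_mul, ← orderOf_dvd_iff_zpow_eq_one, hord] at h2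
    have h3 : ((q ^ 2 - 1 : ℕ) : ℤ) = ((q : ℤ) + 1) * ((q - 1 : ℕ) : ℤ) := by
      have := hq.two_le
      have h4 : 1 ≤ q ^ 2 := Nat.one_le_pow _ _ (by omega)
      push_cast [Nat.cast_sub h4, Nat.cast_sub (show 1 ≤ q by omega)]
      ring
    rw [h3] at h2
    have h4 : (q : ℤ) + 1 ∣ k := by
      have h5 : ((q - 1 : ℕ) : ℤ) ≠ 0 := by
        have := hq.two_le
        omega
      exact Int.dvd_of_mul_dvd_mul_right h5 h2
    obtain ⟨j, rfl⟩ := h4
    refine ⟨((ζ ^ j : Kˣ) : K), ?_⟩
    rw [hq.star, ← pow_succ]
    have h5 := congrArg (fun u : Kˣ => (u : K)) hk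
    simp only [Units.val_mk0] at h5
    rw [← h5, ← Units.val_pow_eq_pow_val, ← zpow_natCast (ζ ^ j), ← zpow_mul]
    congr 2
    push_cast
    ring

end Pool.Agent.Eng.H18
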