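import Pool.Agent.Helper6_Eng.Stmts

/-!
# Squad ENG (MP_da8eb3_al): FEXP and FINJ
-/

set_option autoImplicit false

namespace Pool.Agent.Eng.H18

open Pool.Agent.Eng

/-- FEXP -/
theorem fexp : PdExpStmt := by
  intro G _ _ h d hd hL
  rw [Monoid.exponent_dvd_iff_forall_pow_eq_one]
  intro g
  rw [← orderOf_dvd_iff_pow_eq_one, Nat.dvd_iff_prime_pow_dvd_dvd]
  intro p k hp hpk
  rcases Nat.eq_zero_or_pos k with rfl | hk
  · simp
  · exact h p k hp hk ⟨_, orderOf_pow_orderOf_div (orderOf_pos g).ne' hpk⟩ d hd hL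

lemma map_eng {H G : Type} [Group H] [Group G] (f : H →* G) (y x : H) :
    f (eng y x) = eng (f y) (f x) := by
  simp [eng]

lemma map_iter {H G : Type} [Group H] [Group G] (f : H →* G) (y x : H) (r : ℕ) :
    f ((eng y)^[r] x) = (eng (f y))^[r] (f x) := by
  induction r with
  | zero => rfl
  | succ r ih => rw [Function.iterate_succ_apply', Function.iterate_succ_apply', map_eng, ih]

/-- FINJ -/
theorem pdInj : PdInjStmt := by
  intro H G _ _ f N hf hH d hd ⟨r, hr⟩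
  refine hH d hd ⟨r, fun x y => hf ?_⟩
  rw [map_iter, map_iter, hr]

/-- FINJ -/
theorem pdSurj : PdSurjStmt := by
  intro G Q _ _ f N hf hQ d hd ⟨r, hr⟩
  refine hQ d hd ⟨r, fun x y => ?_⟩
  obtain ⟨x, rfl⟩ := hf x
  obtain ⟨y, rfl⟩ := hf y
  rw [← map_iter, ← map_iter, hr]

/-- FINJ -/
theorem pdCen : PdCenStmt := by
  intro H G _ _ f Z _ Y _ N hf hH d hd ⟨r, hr⟩
  refine hH d hd ⟨r, fun x y => ?_⟩
  obtain ⟨x, rfl⟩ := QuotientGroup.mk'_surjective Z x
  obtain ⟨y, rfl⟩ := QuotientGroup.mk'_surjective Z y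
  rw [← map_iter, ← map_iter]
  have h1 := hr (QuotientGroup.mk' Y (f x)) (QuotientGroup.mk' Y (f y))
  rw [← map_iter, ← map_iter, ← map_iter, ← map_iter] at h1
  simp only [QuotientGroup.mk'_apply] at h1 ⊢
  rw [QuotientGroup.eq] at h1 ⊢
  refine hf _ ?_
  rwa [map_mul, map_inv]

end Pool.Agent.Eng.H18
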